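import Mathlib
import Pool.Agent.Helper50.GS.Tree
import Pool.Agent.Helper50.GS.FamEx
import Pool.Agent.Helper50.GS.SpEx
import Pool.Agent.Helper50.GS.Scat
import Pool.Agent.Helper50.GS.Final2
import Pool.Agent.Helper50.GS.Strict2

/-!
A scattered compact space `K` for which `C(K)` has equivalent strictly convex norms, but every
equivalent norm of `C(K)` has a corner: the answer to the question is negative.
-/

set_option autoImplicit false

namespace Pool.Agent.Results.MP_151819_an.SeparableCounterexample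

/-- every nonempty subset has a relatively isolated point -/
def IsScattered (K : Type) [TopologicalSpace K] : Prop :=
  ∀ S : Set K, S.Nonempty → ∃ x ∈ S, ∃ U : Set K, IsOpen U ∧ U ∩ S = {x}

/-- `N` is a norm on `C(K)` with `a ‖f‖ ≤ N f ≤ b ‖f‖` for all `f` -/
structure IsNormBetween {K : Type} [TopologicalSpace K] [CompactSpace K]
    (a b : ℝ) (N : C(K, ℝ) → ℝ) : Prop where
  pos : 0 < a
  le : a ≤ b
  add : ∀ f g : C(K, ℝ), N (f + g) ≤ N f + N g
  smul : ∀ (r : ℝ) (f : C(K, ℝ)), N (r • f) = |r| * N f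
  lower : ∀ f : C(K, ℝ), a * ‖f‖ ≤ N f
  upper : ∀ f : C(K, ℝ), N f ≤ b * ‖f‖

/-- `N` is an equivalent norm on `C(K)` -/
def IsEquivalentNorm {K : Type} [TopologicalSpace K] [CompactSpace K] (N : C(K, ℝ) → ℝ) : Prop :=
  ∃ a b : ℝ, IsNormBetween a b N

/-- strict convexity -/
def IsStrictlyConvex {K : Type} [TopologicalSpace K] [CompactSpace K] (N : C(K, ℝ) → ℝ) : Prop :=
  ∀ x y : C(K, ℝ), N x = 1 → N y = 1 → x ≠ y → N ((1 / 2 : ℝ) • (x + y)) < 1

/-- the quotients `(N (x + t h) - N x) / t` have a limit for `t → 0`, `t ≠ 0` -/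
def HasDirectionalLimit {K : Type} [TopologicalSpace K] [CompactSpace K] (N : C(K, ℝ) → ℝ)
    (x h : C(K, ℝ)) (l : ℝ) : Prop :=
  Filter.Tendsto (fun t : ℝ => (N (x + t • h) - N x) / t) (nhdsWithin 0 {0}ᶜ) (nhds l)

/-- Gâteaux differentiability at every nonzero point -/
def IsGateauxSmooth {K : Type} [TopologicalSpace K] [CompactSpace K] (N : C(K, ℝ) → ℝ) : Prop :=
  ∀ x : C(K, ℝ), x ≠ 0 → ∃ φ : C(K, ℝ) →L[ℝ] ℝ, ∀ h : C(K, ℝ), HasDirectionalLimit N x h (φ h)

open Pool.Agent.Helper50.GS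

theorem corner_real {T : Type} [GTree T] [Nonempty T] {K : Type} [TopologicalSpace K]
    [CompactSpace K] [T2Space K] (S : Sp T K) {a b : ℝ} {N : C(K, ℝ) → ℝ}
    (hN : IsNormBetween a b N) :
    ∃ x e : C(K, ℝ), N x = 1 ∧ (∀ k, e k = 0 ∨ e k = 1) ∧
      ∀ t : ℝ, 2 + a / 2 * |t| ≤ N (x + t • e) + N (x - t • e) := by
  have ha := hN.pos
  have hEN : EN N a b :=
    ⟨hN.add, hN.smul, hN.pos, lt_of_lt_of_le hN.pos hN.le, hN.lower, hN.upper⟩
  obtain ⟨x, A, hA, hx, hc⟩ := corner2 S hEN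
  set P : ℝ := N x with hP
  have hP0 : 0 < P := lt_of_lt_of_le ha hx
  set e : C(K, ℝ) := ind A with he
  have hconv : ∀ (y z : C(K, ℝ)) (r : ℝ), 0 ≤ r → r ≤ 1 →
      N ((1 - r) • y + r • z) ≤ (1 - r) * N y + r * N z := by
    intro y z r h0 h1
    have h2 := hN.add ((1 - r) • y) (r • z)
    rw [hN.smul, hN.smul, abs_of_nonneg h0, abs_of_nonneg (by linarith : 0 ≤ 1 - r)] at h2
    exact h2
  have hpos : ∀ s : ℝ, 0 ≤ s → 2 * P + s * (a / 2) ≤ N (x + s • e) + N (x - s • e) := by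
    intro s hs
    rcases hs.eq_or_lt with h | h
    · rw [← h, zero_smul, add_zero, sub_zero, zero_mul, add_zero, ← hP]
      linarith
    · obtain ⟨τ, hτ0, hτ1⟩ := exists_rat_btwn (lt_min h one_pos)
      have h1 : (τ : ℝ) < s := lt_of_lt_of_le hτ1 (min_le_left _ _)
      have h2 : (τ : ℝ) < 1 := lt_of_lt_of_le hτ1 (min_le_right _ _)
      have h3 := hc τ (by exact_mod_cast hτ0) (by exact_mod_cast h2.le)
      set r : ℝ := (τ : ℝ) / s with hr
      have hr0 : 0 < r := div_pos hτ0 h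
      have hr1 : r ≤ 1 := (div_le_one h).2 h1.le
      have hrs : r * s = τ := by rw [hr]; field_simp
      have e1 : x + (τ : ℝ) • e = (1 - r) • x + r • (x + s • e) := by
        rw [smul_add, smul_smul, hrs, sub_smul, one_smul]
        abel
      have e2 : x - (τ : ℝ) • e = (1 - r) • x + r • (x - s • e) := by
        rw [smul_sub, smul_smul, hrs, sub_smul, one_smul]
        abel
      have h4 := hconv x (x + s • e) r hr0.le hr1
      have h5 := hconv x (x - s • e) r hr0.le hr1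
      rw [← e1] at h4
      rw [← e2] at h5
      have h6 : r * (2 * P + s * (a / 2)) ≤ r * (N (x + s • e) + N (x - s • e)) := by
        have h7 : r * (s * (a / 2)) = τ * (a / 2) := by rw [← mul_assoc, hrs]
        nlinarith
      exact le_of_mul_le_mul_left h6 hr0
  have hscale : ∀ t : ℝ, 0 ≤ t → 2 + a / 2 * t ≤ N (P⁻¹ • x + t • e) + N (P⁻¹ • x - t • e) := by
    intro t ht
    have h1 := hpos (P * t) (by positivity)
    have e1 : P⁻¹ • x + t • e = P⁻¹ • (x + (P * t) • e) := by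
      rw [smul_add, smul_smul, ← mul_assoc, inv_mul_cancel₀ hP0.ne', one_mul]
    have e2 : P⁻¹ • x - t • e = P⁻¹ • (x - (P * t) • e) := by
      rw [smul_sub, smul_smul, ← mul_assoc, inv_mul_cancel₀ hP0.ne', one_mul]
    rw [e1, e2, hN.smul, hN.smul, abs_of_pos (inv_pos.2 hP0), ← mul_add]
    calc 2 + a / 2 * t = P⁻¹ * (2 * P + P * t * (a / 2)) := by field_simp
      _ ≤ _ := mul_le_mul_of_nonneg_left h1 (inv_pos.2 hP0).le
  refine ⟨P⁻¹ • x, e, ?_, ?_, ?_⟩
  · rw [hN.smul, abs_of_pos (inv_pos.2 hP0), ← hP, inv_mul_cancel₀ hP0.ne']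
  · intro k
    by_cases hk : k ∈ A
    · exact Or.inr (ind_mem hA hk)
    · exact Or.inl (ind_notMem hA hk)
  · intro t
    rcases le_total 0 t with h | h
    · rw [abs_of_nonneg h]
      exact hscale t h
    · rw [abs_of_nonpos h]
      have h1 := hscale (-t) (by linarith)
      rw [neg_smul, ← sub_eq_add_neg, sub_neg_eq_add] at h1
      linarith

theorem no_directional_limit {K : Type} [TopologicalSpace K] [CompactSpace K]
    {a : ℝ} (ha : 0 < a) {N : C(K, ℝ) → ℝ} {x e : C(K, ℝ)} (hx : N x = 1)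
    (h : ∀ t : ℝ, 2 + a / 2 * |t| ≤ N (x + t • e) + N (x - t • e)) :
    ¬ ∃ l : ℝ, HasDirectionalLimit N x e l := by
  rintro ⟨l, hl⟩
  have hs : Filter.Tendsto (fun n : ℕ => (1 / ((n : ℝ) + 1))) Filter.atTop (nhdsWithin 0 {0}ᶜ) := by
    rw [tendsto_nhdsWithin_iff]
    refine ⟨tendsto_one_div_add_atTop_nhds_zero_nat, Filter.Eventually.of_forall fun n => ?_⟩
    have : (0 : ℝ) < 1 / ((n : ℝ) + 1) := by positivity
    simpa using this.ne'
  have hs2 : Filter.Tendsto (fun n : ℕ => -(1 / ((n : ℝ) + 1))) Filter.atTop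
      (nhdsWithin 0 {0}ᶜ) := by
    rw [tendsto_nhdsWithin_iff]
    refine ⟨?_, Filter.Eventually.of_forall fun n => ?_⟩
    · have h1 := (tendsto_one_div_add_atTop_nhds_zero_nat (𝕜 := ℝ)).neg
      rwa [neg_zero] at h1
    · have : (0 : ℝ) < 1 / ((n : ℝ) + 1) := by positivity
      simpa using this.ne'
  have h3 := (hl.comp hs).sub (hl.comp hs2)
  rw [sub_self] at h3
  have h4 : ∀ n : ℕ, a / 2 ≤ ((fun t : ℝ => (N (x + t • e) - N x) / t) ∘
      fun n : ℕ => (1 / ((n : ℝ) + 1))) n - ((fun t : ℝ => (N (x + t • e) - N x) / t) ∘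
      fun n : ℕ => -(1 / ((n : ℝ) + 1))) n := by
    intro n
    have hpos : (0 : ℝ) < 1 / ((n : ℝ) + 1) := by positivity
    have h5 := h (1 / ((n : ℝ) + 1))
    rw [abs_of_pos hpos] at h5
    simp only [Function.comp, neg_smul]
    rw [← sub_eq_add_neg, div_neg, sub_neg_eq_add, ← add_div, le_div_iff₀ hpos, hx]
    linarith
  have h5 := ge_of_tendsto' h3 h4
  linarith

/-- There is a scattered compact Hausdorff space `K` with a countable dense set of isolated points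
such that
(1) for every `ε > 0` there is a strictly convex lattice norm `N` on `C(K)` with
`‖f‖ ≤ N f ≤ (1 + ε) ‖f‖`;
(2) for every norm `N` on `C(K)` with `a ‖f‖ ≤ N f ≤ b ‖f‖` there are a function `x` with `N x = 1`
and the characteristic function `e` of a clopen set such that
`N (x + t e) + N (x - t e) ≥ 2 + (a / 2) |t|` for all real `t`, and the directional derivative of `N`
at `x` in the direction `e` does not exist;
(3) `C(K)` has an equivalent strictly convex norm and no equivalent Gâteaux smooth norm. -/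
theorem result :
    ∃ (K : Type) (_ : TopologicalSpace K) (_ : CompactSpace K) (_ : T2Space K),
      IsScattered K ∧
      (∃ D : Set K, D.Countable ∧ Dense D ∧ ∀ x ∈ D, IsOpen ({x} : Set K)) ∧
      (∀ ε : ℝ, 0 < ε → ∃ N : C(K, ℝ) → ℝ, IsNormBetween 1 (1 + ε) N ∧ IsStrictlyConvex N ∧
        ∀ f g : C(K, ℝ), (∀ k, |f k| ≤ |g k|) → N f ≤ N g) ∧
      (∀ (a b : ℝ) (N : C(K, ℝ) → ℝ), IsNormBetween a b N →
        ∃ x e : C(K, ℝ), N x = 1 ∧ (∀ k, e k = 0 ∨ e k = 1) ∧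
          (∀ t : ℝ, 2 + a / 2 * |t| ≤ N (x + t • e) + N (x - t • e)) ∧
          ¬ ∃ l : ℝ, HasDirectionalLimit N x e l) ∧
      (∃ N : C(K, ℝ) → ℝ, IsEquivalentNorm N ∧ IsStrictlyConvex N) ∧
      ¬ ∃ N : C(K, ℝ) → ℝ, IsEquivalentNorm N ∧ IsGateauxSmooth N := by
  obtain ⟨T, hT, hne⟩ := exists_tree
  obtain ⟨Fm⟩ := exists_fam T
  obtain ⟨K, i1, i2, i3, ⟨S⟩⟩ := exists_space T Fm
  have h3 : ∀ ε : ℝ, 0 < ε → ∃ N : C(K, ℝ) → ℝ, IsNormBetween 1 (1 + ε) N ∧
      IsStrictlyConvex N ∧ ∀ f g : C(K, ℝ), (∀ k, |f k| ≤ |g k|) → N f ≤ N g := by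
    intro ε hε
    obtain ⟨p, h1, h2, h3, h4, h5⟩ := strict2 S.N S.dense ε hε
    exact ⟨p, ⟨one_pos, by linarith, h1, h2, fun f => by rw [one_mul]; exact (h3 f).1,
      fun f => (h3 f).2⟩, h4, h5⟩
  have h4 : ∀ (a b : ℝ) (N : C(K, ℝ) → ℝ), IsNormBetween a b N →
        ∃ x e : C(K, ℝ), N x = 1 ∧ (∀ k, e k = 0 ∨ e k = 1) ∧
          (∀ t : ℝ, 2 + a / 2 * |t| ≤ N (x + t • e) + N (x - t • e)) ∧
          ¬ ∃ l : ℝ, HasDirectionalLimit N x e l := by
    intro a b N hN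
    obtain ⟨x, e, h1, h2, h3⟩ := corner_real S hN
    exact ⟨x, e, h1, h2, h3, no_directional_limit hN.pos h1 h3⟩
  refine ⟨K, i1, i2, i3, scattered S, ⟨Set.range S.N, Set.countable_range _, S.dense, ?_⟩,
    h3, h4, ?_, ?_⟩
  · rintro _ ⟨n, rfl⟩
    exact S.isoN n
  · obtain ⟨N, h1, h2, -⟩ := h3 1 one_pos
    exact ⟨N, ⟨1, 1 + 1, h1⟩, h2⟩
  · rintro ⟨N, ⟨a, b, hN⟩, hG⟩
    obtain ⟨x, e, hx1, -, -, hno⟩ := h4 a b N hN
    have hx0 : x ≠ 0 := by
      rintro rfl
      have h1 := hN.smul 0 0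
      rw [zero_smul, abs_zero, zero_mul] at h1
      linarith
    obtain ⟨φ, hφ⟩ := hG x hx0
    exact hno ⟨φ e, hφ e⟩

end Pool.Agent.Results.MP_151819_an.SeparableCounterexample
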